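import Mathlib

namespace Pool.Agent.Results.MP_ec2b5b_lc.Gap

open Finset

/-- `r` is what the buyer of type `(v, c)` pays when offered the menu `M`: declining is the option
of utility `c` and payment `0`, and among the options of maximal utility the payment is maximal -/
def Pays (M : Set (ℝ × ℝ)) (v c r : ℝ) : Prop :=
  IsGreatest {p | ∃ u, (u = c ∧ p = 0 ∨ ∃ x, (x, p) ∈ M ∧ u = v * x - p) ∧
    c ≤ u ∧ ∀ o ∈ M, v * o.1 - o.2 ≤ u} r

lemma geo (K : ℕ) : ∀ P : ℝ, 0 ≤ P →
    ∑ i ∈ range K, (if P ≤ 3 * 2 ^ i then P / 2 ^ i else 0) ≤ min 6 (2 * P) := by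
  induction K with
  | zero => intro P hP; simp [hP]
  | succ K ih =>
    intro P hP
    have := ih (P / 2) (by positivity)
    rw [sum_range_succ', sum_congr rfl fun i _ => show (if P ≤ 3 * 2 ^ (i + 1) then P / 2 ^ (i + 1)
      else 0) = if P / 2 ≤ 3 * 2 ^ i then P / 2 / 2 ^ i else 0 from
      if_congr (by rw [pow_succ]; constructor <;> intro <;> linarith) (by ring) rfl]
    rw [le_min_iff] at this ⊢
    split_ifs with h <;> simp at h ⊢ <;> constructor <;> linarith

lemma amgm {a b : ℝ} (ha : 0 < a) (hb : 0 < b) (h : a ≠ b) :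
    a ^ 2 * (1 - 1 / b) - b < a ^ 2 * (1 - 1 / a) - a := by
  have : a ^ 2 * (1 - 1 / a) - a - (a ^ 2 * (1 - 1 / b) - b) = (a - b) ^ 2 / b := by field
  have : 0 < (a - b) ^ 2 / b := by have := sub_ne_zero.2 h; positivity
  linarith

theorem result (C : ℝ) : ∃ (K : ℕ) (v c f g : Fin K → ℝ) (M : Set (ℝ × ℝ)) (r : Fin K → Fin K → ℝ)
    (B : ℝ), (∀ i, 0 ≤ v i ∧ 0 ≤ c i ∧ 0 ≤ f i ∧ 0 ≤ g i) ∧ ∑ i, f i = 1 ∧ ∑ j, g j = 1 ∧
    (∀ o ∈ M, o.1 ∈ Set.Icc 0 1) ∧ (∀ i j, Pays M (v i) (c j) (r i j)) ∧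
    (∀ P, 0 ≤ P → P * ∑ i, ∑ j, (if c j ≤ v i - P then f i * g j else 0) ≤ B) ∧
    C * B < ∑ i, ∑ j, f i * g j * r i j := by
  classical
  obtain ⟨K, hK⟩ := exists_nat_gt (max (7 * C) 0)
  rw [max_lt_iff] at hK
  have : Nonempty (Fin K) := ⟨⟨0, by exact_mod_cast hK.2⟩⟩
  let a : Fin K → ℝ := fun i => 4 * 2 ^ i.val
  have ha (i) : 4 ≤ a i := le_mul_of_one_le_right (by norm_num) (one_le_pow₀ one_le_two)
  have ha0 (i) : 0 < a i := by linarith [ha i]
  have hlt {i j} (h : i < j) : 2 * a i ≤ a j := by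
    have : (2 : ℝ) ^ (i.val + 1) ≤ 2 ^ j.val := pow_le_pow_right₀ one_le_two h
    simp only [a]
    linarith [pow_succ (2 : ℝ) i.val]
  have hinj : Function.Injective a := (show StrictMono a from fun i j h => by
    linarith [hlt h, ha0 i]).injective
  obtain ⟨D, hD1, hD⟩ : ∃ D : ℝ, 1 ≤ D ∧ ∀ i, K ^ 2 * a i ≤ D :=
    ⟨1 + ∑ i, K ^ 2 * a i, le_add_of_nonneg_right (sum_nonneg fun i _ => by
      have := ha0 i; positivity), fun i => (single_le_sum (f := fun i => (K : ℝ) ^ 2 * a i)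
      (fun i _ => by have := ha0 i; positivity) (mem_univ i)).trans (by linarith)⟩
  let F : Fin K → ℝ := fun i => 1 / (a i * D ^ i.val)
  let G : Fin K → ℝ := fun j => D ^ j.val
  have hF (i) : 0 < F i := by have := ha0 i; positivity
  have hG (j) : 0 < G j := by positivity
  have sF : 0 < ∑ i, F i := sum_pos (fun i _ => hF i) univ_nonempty
  have sG : 0 < ∑ i, G i := sum_pos (fun i _ => hG i) univ_nonempty
  let c : Fin K → ℝ := fun j => a j ^ 2 - 3 * a j
  let u : Fin K → ℝ := fun i => a i ^ 2 * (1 - 1 / a i) - a i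
  have hu (i) : u i = a i ^ 2 - 2 * a i := by have := ha0 i; simp only [u]; field
  have hbest (i k) : a i ^ 2 * (1 - 1 / a k) - a k ≤ u i := by
    rcases eq_or_ne i k with rfl | h
    · rfl
    · exact (amgm (ha0 i) (ha0 k) (hinj.ne h)).le
  refine ⟨K, fun i => a i ^ 2, c, fun i => F i / ∑ i, F i, fun j => G j / ∑ j, G j,
    Set.range fun i => (1 - 1 / a i, a i), fun i j => if c j ≤ u i then a i else 0,
    7 / ((∑ i, F i) * ∑ j, G j), fun i => ⟨by positivity, by
      simp only [c]; nlinarith [ha i], (div_pos (hF i) sF).le, (div_pos (hG i) sG).le⟩,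
    by rw [← sum_div, div_self sF.ne'], by rw [← sum_div, div_self sG.ne'], ?_, fun i j => ?_,
    fun P hP => ?_, ?_⟩
  · rintro _ ⟨i, rfl⟩
    have := ha0 i
    exact ⟨sub_nonneg.2 ((div_le_one this).2 (by linarith [ha i])), sub_le_self _ (by positivity)⟩
  · beta_reduce
    split_ifs with h
    · refine ⟨⟨u i, .inr ⟨_, ⟨i, rfl⟩, rfl⟩, h, by rintro _ ⟨k, rfl⟩; exact hbest i k⟩, ?_⟩
      rintro p ⟨w, ⟨-, rfl⟩ | ⟨x, ⟨k, hk⟩, rfl⟩, -, hw⟩
      · exact (ha0 i).le
      · cases hk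
        by_contra hne
        exact (hw _ ⟨i, rfl⟩).not_gt (amgm (ha0 i) (ha0 k) fun e => hne e.ge)
    · refine ⟨⟨c j, .inl ⟨rfl, rfl⟩, le_rfl, by
        rintro _ ⟨k, rfl⟩; exact (hbest i k).trans (not_le.1 h).le⟩, ?_⟩
      rintro p ⟨w, ⟨-, rfl⟩ | ⟨x, ⟨k, hk⟩, rfl⟩, hw, -⟩
      · rfl
      · cases hk
        exact absurd (hw.trans (hbest i k)) h
  · beta_reduce
    rw [le_div_iff₀ (mul_pos sF sG)]
    have key (i j) : P * (if c j ≤ a i ^ 2 - P then F i / (∑ i, F i) * (G j / ∑ j, G j) else 0) *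
        ((∑ i, F i) * ∑ j, G j) ≤
        (if j = i then (if P / 4 ≤ 3 * 2 ^ i.val then P / 4 / 2 ^ i.val else 0) else 0) +
          1 / K ^ 2 := by
      have hK0 : (0 : ℝ) ≤ 1 / K ^ 2 := by positivity
      have hai := ha0 i
      by_cases h : c j ≤ a i ^ 2 - P
      · rw [if_pos h, show P * (F i / (∑ i, F i) * (G j / ∑ j, G j)) * ((∑ i, F i) * ∑ j, G j) =
          P * (F i * G j) by field]
        rcases lt_trichotomy j i with k | rfl | k
        · rw [if_neg k.ne, zero_add]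
          have h1 : D ^ j.val * D ≤ D ^ i.val := by
            rw [← pow_succ]; exact pow_le_pow_right₀ hD1 k
          have h2 : P ≤ a i ^ 2 := by simp only [c] at h; nlinarith [ha j]
          have h3 := hD i
          have h4 := hG j
          simp only [F, G] at h4 ⊢
          rw [one_div_mul_eq_div, mul_div_assoc', div_le_div_iff₀ (by positivity) (pow_pos hK.2 2)]
          calc _ ≤ a i ^ 2 * D ^ j.val * K ^ 2 := by gcongr
            _ = a i * (D ^ j.val * (K ^ 2 * a i)) := by ring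
            _ ≤ a i * (D ^ j.val * D) := by gcongr
            _ ≤ _ := by rw [one_mul]; gcongr
        · rw [if_pos rfl, if_pos (by simp only [c, a] at h; linarith)]
          refine le_add_of_le_of_nonneg (le_of_eq ?_) hK0
          simp only [F, G, a]
          field
        · exfalso
          simp only [c] at h
          nlinarith [hlt k, ha i]
      · rw [if_neg h, mul_zero, zero_mul]
        positivity
    rw [mul_sum, sum_mul]
    simp only [mul_sum _ _ P, sum_mul _ _ ((∑ i, F i) * ∑ j, G j)]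
    refine (sum_le_sum fun i _ => sum_le_sum fun j _ => key i j).trans ?_
    have := (geo K (P / 4) (by positivity)).trans (min_le_left _ _)
    rw [← Fin.sum_univ_eq_sum_range (fun i => if P / 4 ≤ 3 * 2 ^ i then P / 4 / 2 ^ i else 0)] at this
    simp only [sum_add_distrib, sum_ite_eq', mem_univ, if_true, sum_const, card_univ,
      Fintype.card_fin, nsmul_eq_mul]
    have e : (K : ℝ) * (K * (1 / K ^ 2)) = 1 := by have := hK.2; field
    linarith
  · beta_reduce
    rw [mul_div_assoc', div_lt_iff₀ (mul_pos sF sG), sum_mul]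
    refine lt_of_lt_of_le (by simpa [mul_comm] using hK.1 : C * 7 < ∑ _i : Fin K, 1)
      (sum_le_sum fun i _ => ?_)
    have hai := ha0 i
    rw [sum_mul]
    refine le_trans (le_of_eq ?_) (single_le_sum (fun j _ => ?_) (mem_univ i))
    · rw [if_pos (by rw [hu]; simp only [c]; linarith)]
      have : D ^ i.val ≠ 0 := (hG i).ne'
      field_simp
      simp only [F, G]
      field
    · have := hF i
      have := hG j
      positivity

end Pool.Agent.Results.MP_ec2b5b_lc.Gap
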